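import Mathlib
import Pool.Graph.R_seed8.Results.MP_313e16_pr.NotMonotone

set_option autoImplicit false

namespace Pool.Agent.KS6_48.PR

open Finset Matrix Pool.Agent.R964.Doeblin
open Pool.Agent.Results.MP_313e16_pr.NotMonotone

set_option linter.unusedSectionVars false
set_option linter.unusedSimpArgs false

variable {N : ℕ} [NeZero N]

/-- configurations -/
abbrev Cfg (N : ℕ) := Fin N → Bool

/-- probability of the outcome `b` for a `p`-coin -/
def coin (p : Fin 4 → ℝ) (m : Fin 4) (b : Bool) : ℝ := if b then p m else 1 - p m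

lemma coin_true (p : Fin 4 → ℝ) (m : Fin 4) : coin p m true = p m := rfl
lemma coin_false (p : Fin 4 → ℝ) (m : Fin 4) : coin p m false = 1 - p m := rfl

lemma coin_nonneg {p : Fin 4 → ℝ} (hp : ∀ i, 0 ≤ p i ∧ p i ≤ 1) (m : Fin 4) (b : Bool) :
    0 ≤ coin p m b := by
  cases b
  · rw [coin_false]; linarith [(hp m).2]
  · rw [coin_true]; exact (hp m).1

/-- the operator of the chain -/
noncomputable def T (p : Fin 4 → ℝ) (f : Cfg N → ℝ) (x : Cfg N) : ℝ :=
  (∑ i : Fin N, (coin p (nbr x i) true * f (Function.update x i true) +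
    coin p (nbr x i) false * f (Function.update x i false))) / (N : ℝ)

lemma npos : (0 : ℝ) < N := by
  exact_mod_cast Nat.pos_of_ne_zero (NeZero.ne N)

lemma sum_trans (p : Fin 4 → ℝ) (f : Cfg N → ℝ) (x : Cfg N) :
    ∑ y, trans N p x y * f y = T p f x := by
  unfold T Pool.Agent.Results.MP_313e16_pr.NotMonotone.trans
  simp only [Matrix.of_apply, div_mul_eq_mul_div, ← Finset.sum_div, Finset.sum_mul]
  congr 1
  rw [Finset.sum_comm]
  refine Finset.sum_congr rfl fun i _ => ?_
  simp only [add_mul, ite_mul, zero_mul, Finset.sum_add_distrib, Finset.sum_ite_eq',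
    Finset.mem_univ, if_true, coin_true, coin_false]

lemma T_nonneg {p : Fin 4 → ℝ} (hp : ∀ i, 0 ≤ p i ∧ p i ≤ 1) {f : Cfg N → ℝ} (hf : ∀ x, 0 ≤ f x)
    (x : Cfg N) : 0 ≤ T p f x := by
  unfold T
  apply div_nonneg _ npos.le
  exact Finset.sum_nonneg fun i _ => add_nonneg (mul_nonneg (coin_nonneg hp _ _) (hf _))
    (mul_nonneg (coin_nonneg hp _ _) (hf _))

/-- one update -/
lemma T_ge {p : Fin 4 → ℝ} (hp : ∀ i, 0 ≤ p i ∧ p i ≤ 1) {f : Cfg N → ℝ} (hf : ∀ x, 0 ≤ f x)
    (x : Cfg N) (i : Fin N) (b : Bool) :
    coin p (nbr x i) b / N * f (Function.update x i b) ≤ T p f x := by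
  unfold T
  rw [div_mul_eq_mul_div]
  apply div_le_div_of_nonneg_right _ npos.le
  have h1 : coin p (nbr x i) b * f (Function.update x i b) ≤
      coin p (nbr x i) true * f (Function.update x i true) +
        coin p (nbr x i) false * f (Function.update x i false) := by
    have e1 := mul_nonneg (coin_nonneg hp (nbr x i) true) (hf (Function.update x i true))
    have e2 := mul_nonneg (coin_nonneg hp (nbr x i) false) (hf (Function.update x i false))
    cases b
    · linarith
    · linarith
  refine h1.trans ?_
  exact Finset.single_le_sum (f := fun i => coin p (nbr x i) true * f (Function.update x i true) +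
        coin p (nbr x i) false * f (Function.update x i false))
    (fun j _ => add_nonneg (mul_nonneg (coin_nonneg hp _ _) (hf _))
      (mul_nonneg (coin_nonneg hp _ _) (hf _))) (Finset.mem_univ i)

/-- stationarity, dual form -/
lemma stat_T {p : Fin 4 → ℝ} {π : Cfg N → ℝ} (hπ : π ᵥ* trans N p = π) (f : Cfg N → ℝ) :
    ∑ x, π x * T p f x = ∑ x, π x * f x := by
  calc ∑ x, π x * T p f x = ∑ x, π x * ∑ y, trans N p x y * f y := by
        simp only [sum_trans]
    _ = ∑ y, (∑ x, π x * trans N p x y) * f y := by
        simp only [Finset.mul_sum, Finset.sum_mul]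
        rw [Finset.sum_comm]
        refine Finset.sum_congr rfl fun y _ => Finset.sum_congr rfl fun x _ => by ring
    _ = ∑ y, π y * f y := by
        refine Finset.sum_congr rfl fun y _ => ?_
        have := congrFun hπ y
        simp only [vecMul, dotProduct] at this
        rw [this]

lemma stat_iter {p : Fin 4 → ℝ} {π : Cfg N → ℝ} (hπ : π ᵥ* trans N p = π) (n : ℕ)
    (f : Cfg N → ℝ) : ∑ x, π x * (T p)^[n] f x = ∑ x, π x * f x := by
  induction n with
  | zero => rfl
  | succ n ih => rw [Function.iterate_succ_apply', stat_T hπ, ih]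

lemma iter_nonneg {p : Fin 4 → ℝ} (hp : ∀ i, 0 ≤ p i ∧ p i ≤ 1) {f : Cfg N → ℝ}
    (hf : ∀ x, 0 ≤ f x) (n : ℕ) (x : Cfg N) : 0 ≤ (T p)^[n] f x := by
  induction n generalizing x with
  | zero => exact hf x
  | succ n ih => rw [Function.iterate_succ_apply']; exact T_nonneg hp ih x

/-- number of ones -/
def ones (x : Cfg N) : ℕ := (univ.filter fun i => x i = true).card

lemma ones_le (x : Cfg N) : ones x ≤ N := by
  unfold ones
  exact (Finset.card_filter_le _ _).trans (by simp)

lemma ones_update_true (x : Cfg N) (i : Fin N) :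
    (ones (Function.update x i true) : ℝ) = ones x + (if x i then 0 else 1) := by
  unfold ones
  have h : (univ.filter fun j => Function.update x i true j = true) =
      insert i (univ.filter fun j => x j = true) := by
    ext j
    simp only [mem_filter, mem_univ, true_and, mem_insert]
    by_cases hj : j = i
    · subst hj; simp
    · simp [Function.update_of_ne hj, hj]
  rw [h]
  by_cases hx : x i = true
  · rw [Finset.insert_eq_self.mpr (by simp [hx])]
    simp [hx]
  · rw [Finset.card_insert_of_notMem (by simp [hx])]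
    simp [hx]

lemma ones_update_false (x : Cfg N) (i : Fin N) :
    (ones (Function.update x i false) : ℝ) = ones x - (if x i then 1 else 0) := by
  have h := ones_update_true (Function.update x i false) i
  rw [Function.update_idem] at h
  have h2 := ones_update_true x i
  simp only [Function.update_self] at h
  rw [h2] at h
  by_cases hx : x i = true
  · simp only [hx, if_true] at h ⊢
    simp at h
    linarith
  · simp only [hx] at h ⊢
    simp at h
    simp
    linarith

/-- mean number of ones -/
noncomputable def mean (π : Cfg N → ℝ) : ℝ := ∑ x, π x * ones x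

lemma T_ones (p : Fin 4 → ℝ) (x : Cfg N) :
    T p (fun y => (ones y : ℝ)) x = ones x + (∑ i, p (nbr x i) - ones x) / N := by
  have hN := npos (N := N)
  unfold T
  have e : ∀ i : Fin N, coin p (nbr x i) true * (ones (Function.update x i true) : ℝ) +
      coin p (nbr x i) false * (ones (Function.update x i false) : ℝ) =
      ones x + (p (nbr x i) - (if x i then 1 else 0)) := by
    intro i
    rw [ones_update_true, ones_update_false, coin_true, coin_false]
    split_ifs <;> ring
  simp only [e, Finset.sum_add_distrib, Finset.sum_sub_distrib]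
  have h2 : ∑ i : Fin N, (if x i then (1 : ℝ) else 0) = ones x := by
    unfold ones
    rw [Finset.sum_ite]
    simp
  rw [h2, Finset.sum_const, Finset.card_univ, Fintype.card_fin, nsmul_eq_mul]
  field_simp

/-- the mean profit of a stationary distribution -/
lemma profit_eq {p : Fin 4 → ℝ} {π : Cfg N → ℝ} (hπ : IsStationary N p π) :
    profit N p π = 2 * mean π / N - 1 := by
  have hN := npos (N := N)
  have h1 := stat_T hπ.2 (fun y => (ones y : ℝ))
  simp only [T_ones, mul_add, Finset.sum_add_distrib] at h1
  have h2 : ∑ x, π x * ((∑ i, p (nbr x i) - ones x) / N) = 0 := by linarith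
  have h3 : ∑ x, π x * ∑ i, p (nbr x i) = mean π := by
    have e : ∀ x, π x * ((∑ i, p (nbr x i) - ones x) / N) =
        (π x * ∑ i, p (nbr x i) - π x * ones x) / N := fun x => by ring
    simp only [e] at h2
    rw [← Finset.sum_div, Finset.sum_sub_distrib, div_eq_zero_iff] at h2
    rcases h2 with h2 | h2
    · unfold mean; linarith
    · exact absurd h2 hN.ne'
  unfold profit
  have e : ∀ x : Cfg N, π x * ∑ i : Fin N, (p (nbr x i) - (1 - p (nbr x i))) =
      2 * (π x * ∑ i, p (nbr x i)) - N * π x := by
    intro x
    have : ∑ i : Fin N, (p (nbr x i) - (1 - p (nbr x i))) = 2 * ∑ i, p (nbr x i) - N := by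
      have e2 : ∀ i : Fin N, p (nbr x i) - (1 - p (nbr x i)) = 2 * p (nbr x i) - 1 :=
        fun i => by ring
      simp only [e2, Finset.sum_sub_distrib, ← Finset.mul_sum]
      simp
    rw [this]; ring
  rw [Finset.sum_congr rfl (fun x _ => e x), Finset.sum_sub_distrib, ← Finset.mul_sum,
    ← Finset.mul_sum, h3, hπ.1.sum_one]
  field_simp

/-! ### existence of stationary distributions, ergodicity -/

lemma exists_stationary {S : Type} [Fintype S] [DecidableEq S] [Nonempty S] {P : Matrix S S ℝ}
    (hP : IsStochastic P) : ∃ π : S → ℝ, IsProb π ∧ π ᵥ* P = π := by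
  have hdet : (P - 1).det = 0 := by
    apply Matrix.exists_mulVec_eq_zero_iff.mp
    refine ⟨fun _ => 1, ?_, ?_⟩
    · intro h
      obtain ⟨s⟩ := ‹Nonempty S›
      exact one_ne_zero (congrFun h s)
    · funext x
      rw [Matrix.sub_mulVec, Matrix.one_mulVec]
      simp only [Pi.sub_apply, Matrix.mulVec, dotProduct, mul_one, hP.row_sum, sub_self,
        Pi.zero_apply]
  obtain ⟨v, hv0, hv⟩ := Matrix.exists_vecMul_eq_zero_iff.mpr hdet
  rw [Matrix.vecMul_sub, Matrix.vecMul_one, sub_eq_zero] at hv
  -- absolute values
  have h1 : ∀ y, |v y| ≤ ∑ x, |v x| * P x y := by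
    intro y
    have := congrFun hv y
    simp only [vecMul, dotProduct] at this
    rw [← this]
    refine (Finset.abs_sum_le_sum_abs _ _).trans (le_of_eq ?_)
    refine Finset.sum_congr rfl fun x _ => ?_
    rw [abs_mul, abs_of_nonneg (hP.nonneg x y)]
  have h2 : ∑ y, ∑ x, |v x| * P x y = ∑ y, |v y| := by
    rw [Finset.sum_comm]
    simp only [← Finset.mul_sum, hP.row_sum, mul_one]
  have h3 : ∀ y, ∑ x, |v x| * P x y = |v y| := by
    intro y
    have := (Finset.sum_eq_sum_iff_of_le (fun y _ => h1 y)).mp h2.symm y (Finset.mem_univ y)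
    exact this.symm
  have hpos : 0 < ∑ y, |v y| := by
    obtain ⟨y, hy⟩ := Function.ne_iff.mp hv0
    refine Finset.sum_pos' (fun y _ => abs_nonneg _) ⟨y, Finset.mem_univ y, abs_pos.mpr hy⟩
  refine ⟨fun x => |v x| / ∑ y, |v y|, ⟨fun x => by positivity, ?_⟩, ?_⟩
  · rw [← Finset.sum_div, div_self hpos.ne']
  · funext y
    simp only [vecMul, dotProduct, div_mul_eq_mul_div, ← Finset.sum_div, h3]

lemma trans_stoch {p : Fin 4 → ℝ} (hp : ∀ i, 0 ≤ p i ∧ p i ≤ 1) : IsStochastic (trans N p) where
  nonneg x y := by
    have h := sum_trans (N := N) p (fun z => if z = y then (1 : ℝ) else 0) x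
    simp only [mul_ite, mul_one, mul_zero, Finset.sum_ite_eq', Finset.mem_univ, if_true] at h
    rw [h]
    exact T_nonneg hp (fun z => by split_ifs <;> norm_num) x
  row_sum x := by
    have h := sum_trans (N := N) p (fun _ => (1 : ℝ)) x
    simp only [mul_one] at h
    rw [h]
    unfold T
    simp only [mul_one, coin_true, coin_false]
    have e : ∀ i : Fin N, p (nbr x i) + (1 - p (nbr x i)) = 1 := fun i => by ring
    simp only [e]
    simp [npos.ne']

lemma trans_update {p : Fin 4 → ℝ} (hp : ∀ i, 0 ≤ p i ∧ p i ≤ 1) (x : Cfg N) (i : Fin N)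
    (b : Bool) : coin p (nbr x i) b / N ≤ trans N p x (Function.update x i b) := by
  have h := sum_trans (N := N) p (fun z => if z = Function.update x i b then (1 : ℝ) else 0) x
  simp only [mul_ite, mul_one, mul_zero, Finset.sum_ite_eq', Finset.mem_univ, if_true] at h
  rw [h]
  have := T_ge hp (f := fun z => if z = Function.update x i b then (1 : ℝ) else 0)
    (fun z => by split_ifs <;> norm_num) x i b
  simpa using this

/-- if all coins give `b` with positive probability, the chain is ergodic -/
lemma ergodic_of {p : Fin 4 → ℝ} (hp : ∀ i, 0 ≤ p i ∧ p i ≤ 1) (b : Bool)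
    (hb : ∀ m, 0 < coin p m b) : IsErgodic (trans N p) := by
  have hP := trans_stoch (N := N) hp
  obtain ⟨π, hπ, hst⟩ := exists_stationary hP
  apply isErgodic_of_doeblin hP hπ hst N (fun _ => b)
  intro x
  have key : ∀ m : ℕ, m ≤ N →
      0 < (trans N p ^ m) x (fun i => if i.val < m then b else x i) := by
    intro m
    induction m with
    | zero =>
      intro _
      simp
    | succ m ih =>
      intro hm
      have h1 := ih (by omega)
      set y : Cfg N := fun i => if i.val < m then b else x i with hy
      have h2 : 0 < (trans N p ^ 1) y (Function.update y ⟨m, by omega⟩ b) := by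
        rw [pow_one]
        exact lt_of_lt_of_le (div_pos (hb _) npos) (trans_update hp y ⟨m, by omega⟩ b)
      have h3 := pow_pos_trans hP h1 h2
      have e : Function.update y ⟨m, by omega⟩ b = fun i : Fin N => if i.val < m + 1 then b else x i := by
        funext i
        by_cases hi : i = ⟨m, by omega⟩
        · subst hi; simp
        · rw [Function.update_of_ne hi, hy]
          have : i.val ≠ m := fun h => hi (Fin.ext h)
          by_cases h : i.val < m
          · simp [h, Nat.lt_succ_of_lt h]
          · have : ¬ i.val < m + 1 := by omega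
            simp [h, this]
      rw [e] at h3
      exact h3
  have := key N le_rfl
  have e : (fun i : Fin N => if i.val < N then b else x i) = fun _ => b := by
    funext i
    simp [i.2]
  rw [e] at this
  exact this

end Pool.Agent.KS6_48.PR
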