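import Pool.Agent.KS6_48.PR.HC

set_option autoImplicit false

namespace Pool.Agent.KS6_48.PR

open Finset Matrix Pool.Agent.R964.Doeblin
open Pool.Agent.Results.MP_313e16_pr.NotMonotone

set_option linter.unusedSectionVars false
set_option linter.unusedSimpArgs false

variable {N : ℕ} [NeZero N]

/-- the preferred value -/
def rv (x : Cfg N) (i : Fin N) : Bool := !(x (i - 1)) && !(x (i + 1))

/-- update to the preferred value -/
def stp (x : Cfg N) (i : Fin N) : Cfg N := Function.update x i (rv x i)

/-- frozen configurations -/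
def Frozen (x : Cfg N) : Prop := ∀ i, x i = rv x i

/-- paths of preferred updates -/
inductive NP : ℕ → Cfg N → Cfg N → Prop
  | refl (x : Cfg N) : NP 0 x x
  | head (n : ℕ) (x y : Cfg N) (i : Fin N) (h : NP n (stp x i) y) : NP (n + 1) x y

lemma NP.trans' {m n : ℕ} {x y z : Cfg N} (h1 : NP m x y) (h2 : NP n y z) : NP (m + n) x z := by
  induction h1 with
  | refl x => rwa [Nat.zero_add]
  | head k x y i h ih =>
    have := NP.head _ x z i (ih h2)
    rwa [show k + 1 + n = k + n + 1 by ring]

lemma pc_ok {a c : ℝ} (ha : 0 ≤ a) (ha1 : a ≤ 1) (hc : 0 ≤ c) (hc1 : c ≤ 1) :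
    ∀ i, 0 ≤ pc a c i ∧ pc a c i ≤ 1 := by
  intro i
  fin_cases i
  · constructor
    · show (0 : ℝ) ≤ 1 - a; linarith
    · show (1 : ℝ) - a ≤ 1; linarith
  · constructor
    · show (0 : ℝ) ≤ 0; exact le_rfl
    · show (0 : ℝ) ≤ 1; norm_num
  · constructor
    · show (0 : ℝ) ≤ 0; exact le_rfl
    · show (0 : ℝ) ≤ 1; norm_num
  · constructor
    · show (0 : ℝ) ≤ c; exact hc
    · show c ≤ (1 : ℝ); exact hc1

lemma coin_r {a c : ℝ} (hac : a ≤ c) (hc : 0 ≤ c) (x : Cfg N) (i : Fin N) :
    1 - c ≤ coin (pc a c) (nbr x i) (rv x i) := by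
  unfold rv nbr
  cases h1 : x (i - 1) <;> cases h2 : x (i + 1)
  · show 1 - c ≤ 1 - a; linarith
  · show 1 - c ≤ 1 - 0; linarith
  · show 1 - c ≤ 1 - 0; linarith
  · show 1 - c ≤ 1 - c; exact le_rfl

section bounds

variable {a c : ℝ} (ha : 0 ≤ a) (hac : a ≤ c) (hc1 : c ≤ 1)

include ha hac hc1

lemma ok' : ∀ i, 0 ≤ pc a c i ∧ pc a c i ≤ 1 :=
  pc_ok ha (hac.trans hc1) (ha.trans hac) hc1

lemma NP_bound {m : ℕ} {x y : Cfg N} (h : NP m x y) {f : Cfg N → ℝ} (hf : ∀ x, 0 ≤ f x) :
    ((1 - c) / N) ^ m * f y ≤ (T (pc a c))^[m] f x := by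
  have hp := ok' ha hac hc1
  have hN := npos (N := N)
  induction h with
  | refl x => simp
  | head k x y i h ih =>
    rw [Function.iterate_succ_apply']
    have h1 := T_ge hp (iter_nonneg hp hf k) x i (rv x i)
    refine le_trans ?_ h1
    have h2 : (1 - c) / N ≤ coin (pc a c) (nbr x i) (rv x i) / N :=
      div_le_div_of_nonneg_right (coin_r hac (ha.trans hac) x i) hN.le
    have h3 : 0 ≤ (T (pc a c))^[k] f (stp x i) := iter_nonneg hp hf k _
    calc ((1 - c) / N) ^ (k + 1) * f y = (1 - c) / N * (((1 - c) / N) ^ k * f y) := by ring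
      _ ≤ (1 - c) / N * (T (pc a c))^[k] f (stp x i) := by
          apply mul_le_mul_of_nonneg_left ih
          apply div_nonneg _ hN.le
          linarith
      _ ≤ _ := mul_le_mul_of_nonneg_right h2 h3

lemma frozen_step {x : Cfg N} (hx : Frozen x) {f : Cfg N → ℝ} (hf : ∀ x, 0 ≤ f x) :
    (1 - c) * f x ≤ T (pc a c) f x := by
  have hp := ok' ha hac hc1
  have hN := npos (N := N)
  unfold T
  rw [le_div_iff₀ hN]
  calc (1 - c) * f x * N = ∑ _i : Fin N, (1 - c) * f x := by
        rw [Finset.sum_const, Finset.card_univ, Fintype.card_fin, nsmul_eq_mul]; ring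
    _ ≤ _ := by
        refine Finset.sum_le_sum fun i _ => ?_
        have h1 := coin_r hac (ha.trans hac) x i
        have e1 := mul_nonneg (coin_nonneg hp (nbr x i) true) (hf (Function.update x i true))
        have e2 := mul_nonneg (coin_nonneg hp (nbr x i) false) (hf (Function.update x i false))
        have h2 := mul_le_mul_of_nonneg_right h1 (hf x)
        rw [← hx i] at h1 h2
        cases h : x i
        · have e : Function.update x i false = x := by rw [← h, Function.update_eq_self]
          rw [h] at h2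
          rw [e] at e2 ⊢
          linarith
        · have e : Function.update x i true = x := by rw [← h, Function.update_eq_self]
          rw [h] at h2
          rw [e] at e1 ⊢
          linarith

lemma frozen_iter {x : Cfg N} (hx : Frozen x) {f : Cfg N → ℝ} (hf : ∀ x, 0 ≤ f x) (n : ℕ) :
    (1 - c) ^ n * f x ≤ (T (pc a c))^[n] f x := by
  have hp := ok' ha hac hc1
  induction n with
  | zero => simp
  | succ n ih =>
    rw [Function.iterate_succ_apply']
    refine le_trans ?_ (frozen_step ha hac hc1 hx (iter_nonneg hp hf n))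
    rw [pow_succ]
    calc (1 - c) ^ n * (1 - c) * f x = (1 - c) * ((1 - c) ^ n * f x) := by ring
      _ ≤ _ := mul_le_mul_of_nonneg_left ih (by linarith)

end bounds

/-! ### absorption -/

lemma frozen_pad {y : Cfg N} (hy : Frozen y) (n : ℕ) : NP n y y := by
  induction n with
  | zero => exact NP.refl y
  | succ n ih =>
    apply NP.head n y y 0
    have : stp y 0 = y := by
      unfold stp
      rw [← hy 0, Function.update_eq_self]
    rwa [this]

lemma frozen_indep {y : Cfg N} (hy : Frozen y) : Indep y := by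
  rintro i ⟨h1, h2⟩
  have := hy i
  rw [h1, rv, h2] at this
  simp at this

lemma ones_false_of_true {x : Cfg N} {i : Fin N} (h : x i = true) :
    ones (Function.update x i false) + 1 = ones x := by
  have := ones_succ x i
  rw [← h, Function.update_eq_self] at this
  exact this.symm

lemma ones_true_of_false {x : Cfg N} {i : Fin N} (h : x i = false) :
    ones (Function.update x i true) = ones x + 1 := by
  have := ones_succ x i
  rw [this]
  congr 1
  rw [← h, Function.update_eq_self]

lemma to_indep : ∀ (n : ℕ) (x : Cfg N), ones x ≤ n → ∃ y : Cfg N, Indep y ∧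
    ∃ m ≤ n, NP m x y := by
  intro n
  induction n with
  | zero =>
    intro x hx
    refine ⟨x, ?_, 0, le_rfl, NP.refl x⟩
    rintro i ⟨h1, _⟩
    have := ones_false_of_true h1
    omega
  | succ n ih =>
    intro x hx
    by_cases hI : Indep x
    · exact ⟨x, hI, 0, Nat.zero_le _, NP.refl x⟩
    · unfold Indep at hI
      push Not at hI
      obtain ⟨i, h1, h2⟩ := hI
      have hs : stp x i = Function.update x i false := by
        unfold stp rv
        rw [h2]
        simp
      have ho := ones_false_of_true h1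
      obtain ⟨y, hy, m, hm, hp⟩ := ih (stp x i) (by rw [hs]; omega)
      exact ⟨y, hy, m + 1, by omega, NP.head m x y i hp⟩

lemma to_frozen (hN : 2 ≤ N) : ∀ (n : ℕ) (x : Cfg N), Indep x → N - ones x ≤ n →
    ∃ y : Cfg N, Frozen y ∧ ∃ m ≤ n, NP m x y := by
  intro n
  induction n with
  | zero =>
    intro x hI hx
    exfalso
    have h1 : ones x = N := le_antisymm (ones_le x) (by omega)
    have h2 : (univ.filter fun i => x i = true) = univ := by
      apply Finset.eq_univ_of_card
      rw [Fintype.card_fin]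
      exact h1
    have h3 : ∀ i, x i = true := by
      intro i
      have : i ∈ (univ.filter fun i => x i = true) := by rw [h2]; exact Finset.mem_univ i
      simpa using this
    exact hI 0 ⟨h3 _, h3 _⟩
  | succ n ih =>
    intro x hI hx
    by_cases hF : Frozen x
    · exact ⟨x, hF, 0, Nat.zero_le _, NP.refl x⟩
    · unfold Frozen at hF
      push Not at hF
      obtain ⟨i, hi⟩ := hF
      have hxi : x i = false := by
        by_contra hcon
        rw [Bool.not_eq_false] at hcon
        apply hi
        rw [hcon]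
        unfold rv
        have h1 := hI i
        have h2 := hI (i - 1)
        rw [sub_add_cancel] at h2
        simp only [hcon, true_and, and_true, Bool.not_eq_true] at h1 h2
        rw [h1, h2]
        rfl
      have hr : rv x i = true := by
        rw [hxi] at hi
        cases h : rv x i
        · rw [h] at hi; exact absurd rfl hi
        · rfl
      have hs : stp x i = Function.update x i true := by
        unfold stp; rw [hr]
      have ho := ones_true_of_false hxi
      have hI2 : Indep (stp x i) := by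
        rw [hs, indep_update_true hN]
        refine ⟨?_, ?_⟩
        · rw [nbr_zero_iff]
          unfold rv at hr
          simpa using hr
        · rw [← hxi, Function.update_eq_self]
          exact hI
      have hle := ones_le (Function.update x i true)
      obtain ⟨y, hy, m, hm, hp⟩ := ih (stp x i) hI2 (by rw [hs]; omega)
      exact ⟨y, hy, m + 1, by omega, NP.head m x y i hp⟩

lemma absorb (hN : 2 ≤ N) (x : Cfg N) : ∃ y : Cfg N, Frozen y ∧ NP (2 * N) x y := by
  obtain ⟨y, hy, m, hm, h1⟩ := to_indep N x (ones_le x)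
  obtain ⟨z, hz, k, hk, h2⟩ := to_frozen hN N y hy (by omega)
  refine ⟨z, hz, ?_⟩
  have h3 := (h1.trans' h2).trans' (frozen_pad hz (2 * N - (m + k)))
  rwa [show m + k + (2 * N - (m + k)) = 2 * N by omega] at h3

/-! ### the geometry of the cycle -/

lemma nsmul_val (k : ℕ) : ((k • (1 : Fin N) : Fin N)).val = k % N := by
  induction k with
  | zero => simp
  | succ k ih =>
    rw [succ_nsmul, Fin.val_add, ih, Fin.val_one', ← Nat.add_mod]

lemma nsmul_ne {k : ℕ} (h0 : 0 < k) (hk : k < N) : (k • (1 : Fin N) : Fin N) ≠ 0 := by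
  intro h
  have := congrArg Fin.val h
  rw [nsmul_val, Nat.mod_eq_of_lt hk] at this
  simp at this
  omega

lemma count_defects {y : Cfg N} (hI : Indep y) :
    2 * ones y + (univ.filter fun j => y j = false ∧ y (j + 1) = false).card = N := by
  have h1 : ∀ j : Fin N, (if y j = true then 1 else 0) + (if y (j + 1) = true then 1 else 0) +
      (if y j = false ∧ y (j + 1) = false then 1 else 0) = 1 := by
    intro j
    have := hI j
    cases h1 : y j <;> cases h2 : y (j + 1)
    · simp
    · simp
    · simp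
    · exact absurd ⟨h1, h2⟩ this
  have h2 : ∑ j : Fin N, ((if y j = true then 1 else 0) + (if y (j + 1) = true then 1 else 0) +
      (if y j = false ∧ y (j + 1) = false then 1 else 0)) = N := by
    rw [Finset.sum_congr rfl (fun j _ => h1 j)]
    simp
  rw [Finset.sum_add_distrib, Finset.sum_add_distrib] at h2
  have h3 : ∑ j : Fin N, (if y (j + 1) = true then 1 else 0) =
      ∑ j : Fin N, (if y j = true then 1 else 0) :=
    Equiv.sum_comp (Equiv.addRight (1 : Fin N)) (fun j => if y j = true then 1 else 0)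
  rw [h3] at h2
  unfold ones
  rw [Finset.card_filter, Finset.card_filter]
  omega

/-- the local pattern `1 0 1 0 1 0 1` -/
def Pat (y : Cfg N) (i : Fin N) : Prop :=
  y i = false ∧ y (i - 1) = true ∧ y (i + 1) = true ∧ y (i + 1 + 1) = false ∧
    y (i - 1 - 1) = false ∧ y (i + 1 + 1 + 1) = true ∧ y (i - 1 - 1 - 1) = true

lemma exists_pat (hN : 6 ≤ N) (hN7 : N ≠ 7) {y : Cfg N} (hy : Frozen y)
    (ho : N ≤ 2 * ones y + 1) : ∃ i, Pat y i := by
  classical
  have hI := frozen_indep hy
  have hc := count_defects hI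
  set E := univ.filter fun j => y j = false ∧ y (j + 1) = false with hE
  have halt : ∀ j, j ∉ E → y (j + 1) = !(y j) := by
    intro j hj
    have h1 := hI j
    simp only [hE, mem_filter, mem_univ, true_and] at hj
    cases h2 : y j <;> cases h3 : y (j + 1)
    · exact absurd ⟨h2, h3⟩ hj
    · rfl
    · rfl
    · exact absurd ⟨h2, h3⟩ h1
  rcases Nat.eq_zero_or_pos E.card with h0 | hpos
  · -- no defect
    rw [Finset.card_eq_zero] at h0
    have hall : ∀ j, y (j + 1) = !(y j) := fun j => halt j (by rw [h0]; simp)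
    have hall' : ∀ j, y (j - 1) = !(y j) := by
      intro j
      have := hall (j - 1)
      rw [sub_add_cancel] at this
      rw [this]; simp
    obtain ⟨i, hi⟩ : ∃ i, y i = false := by
      by_cases h : y 0 = false
      · exact ⟨0, h⟩
      · rw [Bool.not_eq_false] at h
        refine ⟨0 + 1, ?_⟩
        rw [hall, h]; rfl
    refine ⟨i, hi, ?_, ?_, ?_, ?_, ?_, ?_⟩ <;> simp only [hall, hall', hi] <;> rfl
  · -- one defect
    have hcard : E.card = 1 := by omega
    obtain ⟨i0, hi0⟩ := Finset.card_eq_one.mp hcard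
    have hmem : i0 ∈ E := by rw [hi0]; simp
    have hd : y i0 = false ∧ y (i0 + 1) = false := by
      simpa [hE] using hmem
    have hall : ∀ j, j ≠ i0 → y (j + 1) = !(y j) := fun j hj => halt j (by rw [hi0]; simpa using hj)
    have hN8 : 8 ≤ N := by omega
    have hne : ∀ k : ℕ, 0 < k → k < 8 → i0 + k • (1 : Fin N) ≠ i0 := by
      intro k hk hk8 h
      exact nsmul_ne (N := N) hk (by omega) (by simpa using h)
    have v1 : y (i0 + 1) = false := hd.2
    have v2 : y (i0 + 1 + 1) = true := by
      rw [hall _ (by have := hne 1 (by norm_num) (by norm_num); simpa using this), v1]; rfl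
    have v3 : y (i0 + 1 + 1 + 1) = false := by
      rw [hall _ (by
        have := hne 2 (by norm_num) (by norm_num)
        rwa [show i0 + 2 • (1 : Fin N) = i0 + 1 + 1 by abel] at this), v2]; rfl
    have v4 : y (i0 + 1 + 1 + 1 + 1) = true := by
      rw [hall _ (by
        have := hne 3 (by norm_num) (by norm_num)
        rwa [show i0 + 3 • (1 : Fin N) = i0 + 1 + 1 + 1 by abel] at this), v3]; rfl
    have v5 : y (i0 + 1 + 1 + 1 + 1 + 1) = false := by
      rw [hall _ (by
        have := hne 4 (by norm_num) (by norm_num)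
        rwa [show i0 + 4 • (1 : Fin N) = i0 + 1 + 1 + 1 + 1 by abel] at this), v4]; rfl
    have v6 : y (i0 + 1 + 1 + 1 + 1 + 1 + 1) = true := by
      rw [hall _ (by
        have := hne 5 (by norm_num) (by norm_num)
        rwa [show i0 + 5 • (1 : Fin N) = i0 + 1 + 1 + 1 + 1 + 1 by abel] at this), v5]; rfl
    have v7 : y (i0 + 1 + 1 + 1 + 1 + 1 + 1 + 1) = false := by
      rw [hall _ (by
        have := hne 6 (by norm_num) (by norm_num)
        rwa [show i0 + 6 • (1 : Fin N) = i0 + 1 + 1 + 1 + 1 + 1 + 1 by abel] at this), v6]; rfl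
    have v8 : y (i0 + 1 + 1 + 1 + 1 + 1 + 1 + 1 + 1) = true := by
      rw [hall _ (by
        have := hne 7 (by norm_num) (by norm_num)
        rwa [show i0 + 7 • (1 : Fin N) = i0 + 1 + 1 + 1 + 1 + 1 + 1 + 1 by abel] at this), v7]; rfl
    refine ⟨i0 + 1 + 1 + 1 + 1 + 1, v5, ?_, v6, v7, ?_, v8, ?_⟩
    · rw [add_sub_cancel_right]; exact v4
    · rw [add_sub_cancel_right, add_sub_cancel_right]; exact v3
    · rw [add_sub_cancel_right, add_sub_cancel_right, add_sub_cancel_right]; exact v2

/-- the configuration after the three updates -/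
def zz (y : Cfg N) (i : Fin N) : Cfg N :=
  Function.update (Function.update (Function.update y i true) (i - 1) false) (i + 1) false

lemma zz_i (hN : 6 ≤ N) (y : Cfg N) (i : Fin N) : zz y i i = true := by
  unfold zz
  rw [Function.update_of_ne (succ_ne (by omega) i).symm,
    Function.update_of_ne (pred_ne (by omega) i).symm, Function.update_self]

lemma zz_b (y : Cfg N) (i : Fin N) : zz y i (i + 1) = false := by
  unfold zz; rw [Function.update_self]

lemma ab_ne (hN : 6 ≤ N) (i : Fin N) : i - 1 ≠ i + 1 := by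
  intro h
  apply nsmul_ne (N := N) (k := 2) (by norm_num) (by omega)
  have : (2 • (1 : Fin N) : Fin N) = (i + 1) - (i - 1) := by abel
  rw [this, h, sub_self]

lemma zz_a (hN : 6 ≤ N) (y : Cfg N) (i : Fin N) : zz y i (i - 1) = false := by
  unfold zz; rw [Function.update_of_ne (ab_ne hN i), Function.update_self]

lemma zz_other (y : Cfg N) (i j : Fin N) (h1 : j ≠ i) (h2 : j ≠ i - 1) (h3 : j ≠ i + 1) :
    zz y i j = y j := by
  unfold zz; rw [Function.update_of_ne h3, Function.update_of_ne h2, Function.update_of_ne h1]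

lemma far_ne (hN : 6 ≤ N) (i : Fin N) :
    (i + 1 + 1 + 1 ≠ i ∧ i + 1 + 1 + 1 ≠ i - 1 ∧ i + 1 + 1 + 1 ≠ i + 1) ∧
    (i - 1 - 1 - 1 ≠ i ∧ i - 1 - 1 - 1 ≠ i - 1 ∧ i - 1 - 1 - 1 ≠ i + 1) := by
  have k : ∀ k : ℕ, 0 < k → k < 6 → (k • (1 : Fin N) : Fin N) ≠ 0 :=
    fun k h1 h2 => nsmul_ne h1 (by omega)
  refine ⟨⟨fun h => ?_, fun h => ?_, fun h => ?_⟩, ⟨fun h => ?_, fun h => ?_, fun h => ?_⟩⟩
  · apply k 3 (by norm_num) (by norm_num)
    rw [show (3 • (1 : Fin N) : Fin N) = (i + 1 + 1 + 1) - i by abel, h, sub_self]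
  · apply k 4 (by norm_num) (by norm_num)
    rw [show (4 • (1 : Fin N) : Fin N) = (i + 1 + 1 + 1) - (i - 1) by abel, h, sub_self]
  · apply k 2 (by norm_num) (by norm_num)
    rw [show (2 • (1 : Fin N) : Fin N) = (i + 1 + 1 + 1) - (i + 1) by abel, h, sub_self]
  · apply k 3 (by norm_num) (by norm_num)
    rw [show (3 • (1 : Fin N) : Fin N) = i - (i - 1 - 1 - 1) by abel, h, sub_self]
  · apply k 2 (by norm_num) (by norm_num)
    rw [show (2 • (1 : Fin N) : Fin N) = (i - 1) - (i - 1 - 1 - 1) by abel, h, sub_self]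
  · apply k 4 (by norm_num) (by norm_num)
    rw [show (4 • (1 : Fin N) : Fin N) = (i + 1) - (i - 1 - 1 - 1) by abel, h, sub_self]

lemma zz_frozen (hN : 6 ≤ N) {y : Cfg N} (hy : Frozen y) {i : Fin N} (hp : Pat y i) :
    Frozen (zz y i) := by
  obtain ⟨p0, pa, pb, pb1, pa1, pb2, pa2⟩ := hp
  obtain ⟨⟨f1, f2, f3⟩, ⟨g1, g2, g3⟩⟩ := far_ne hN i
  intro j
  unfold rv
  by_cases h1 : j = i
  · rw [h1, zz_i hN, zz_a hN, zz_b]; rfl
  by_cases h2 : j = i - 1
  · rw [h2, zz_a hN, sub_add_cancel, zz_i hN]; simp
  by_cases h3 : j = i + 1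
  · rw [h3, zz_b, add_sub_cancel_right, zz_i hN]; simp
  rw [zz_other y i j h1 h2 h3]
  by_cases h4 : j = i + 1 + 1
  · rw [h4, pb1, zz_other y i (i + 1 + 1 + 1) f1 f2 f3, pb2]; simp
  by_cases h5 : j = i - 1 - 1
  · rw [h5, pa1, zz_other y i (i - 1 - 1 - 1) g1 g2 g3, pa2]; simp
  have e1 : zz y i (j - 1) = y (j - 1) := by
    apply zz_other
    · intro h; apply h3; rw [← h, sub_add_cancel]
    · intro h; apply h1
      have := congrArg (· + 1) h
      simpa using this
    · intro h; apply h4; rw [← h, sub_add_cancel]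
  have e2 : zz y i (j + 1) = y (j + 1) := by
    apply zz_other
    · intro h; apply h2; rw [← h, add_sub_cancel_right]
    · intro h; apply h5; rw [← h, add_sub_cancel_right]
    · intro h; apply h1
      exact add_right_cancel h
  rw [e1, e2]
  exact hy j

lemma zz_ones (hN : 6 ≤ N) {y : Cfg N} {i : Fin N} (hp : Pat y i) :
    ones (zz y i) + 1 = ones y := by
  obtain ⟨p0, pa, pb, -⟩ := hp
  have h1 := ones_true_of_false p0
  have h2 : (Function.update y i true) (i - 1) = true := by
    rw [Function.update_of_ne (pred_ne (by omega) i)]; exact pa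
  have h3 := ones_false_of_true h2
  have h4 : (Function.update (Function.update y i true) (i - 1) false) (i + 1) = true := by
    rw [Function.update_of_ne (ab_ne hN i).symm, Function.update_of_ne (succ_ne (by omega) i)]
    exact pb
  have h5 := ones_false_of_true h4
  unfold zz
  omega

lemma three {a c : ℝ} (ha : 0 ≤ a) (hac : a ≤ c) (hc1 : c ≤ 1) (hN : 6 ≤ N) {y : Cfg N}
    {i : Fin N} (hp : Pat y i) {f : Cfg N → ℝ} (hf : ∀ x, 0 ≤ f x) :
    c / N * ((1 - c) / N * ((1 - c) / N * f (zz y i))) ≤ (T (pc a c))^[3] f y := by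
  have hok := ok' ha hac hc1
  have hNp := npos (N := N)
  obtain ⟨p0, pa, pb, -⟩ := hp
  have hc0 : 0 ≤ c := ha.trans hac
  rw [show (T (pc a c))^[3] f y = T (pc a c) (T (pc a c) (T (pc a c) f)) y from rfl]
  set y1 := Function.update y i true with hy1
  set y2 := Function.update y1 (i - 1) false with hy2
  have s1 := T_ge hok (f := T (pc a c) (T (pc a c) f))
    (T_nonneg hok (T_nonneg hok hf)) y i true
  have c1 : coin (pc a c) (nbr y i) true = c := by
    unfold nbr
    rw [pa, pb]
    rfl
  rw [c1, ← hy1] at s1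
  have s2 := T_ge hok (f := T (pc a c) f) (T_nonneg hok hf) y1 (i - 1) false
  have r2 : rv y1 (i - 1) = false := by
    unfold rv
    rw [sub_add_cancel, hy1, Function.update_self]
    simp
  have c2 := coin_r (a := a) hac hc0 y1 (i - 1)
  rw [r2] at c2
  rw [← hy2] at s2
  have s3 := T_ge hok hf y2 (i + 1) false
  have r3 : rv y2 (i + 1) = false := by
    unfold rv
    rw [add_sub_cancel_right, hy2, Function.update_of_ne (pred_ne (by omega) i).symm, hy1,
      Function.update_self]
    simp
  have c3 := coin_r (a := a) hac hc0 y2 (i + 1)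
  rw [r3] at c3
  have hz : Function.update y2 (i + 1) false = zz y i := rfl
  rw [hz] at s3
  have hfz := hf (zz y i)
  have t3 : (1 - c) / N * f (zz y i) ≤ T (pc a c) f y2 := by
    refine le_trans ?_ s3
    apply mul_le_mul_of_nonneg_right _ hfz
    exact div_le_div_of_nonneg_right c3 hNp.le
  have hTf := T_nonneg hok hf y2
  have t2 : (1 - c) / N * ((1 - c) / N * f (zz y i)) ≤ T (pc a c) (T (pc a c) f) y1 := by
    refine le_trans ?_ s2
    calc (1 - c) / N * ((1 - c) / N * f (zz y i)) ≤ (1 - c) / N * T (pc a c) f y2 := by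
          apply mul_le_mul_of_nonneg_left t3
          apply div_nonneg _ hNp.le
          linarith
      _ ≤ _ := by
          apply mul_le_mul_of_nonneg_right _ hTf
          exact div_le_div_of_nonneg_right c2 hNp.le
  refine le_trans ?_ s1
  exact mul_le_mul_of_nonneg_left t2 (div_nonneg hc0 hNp.le)

end Pool.Agent.KS6_48.PR
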