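import Pool.Agent.KS6_48.PR.Basic

set_option autoImplicit false

namespace Pool.Agent.KS6_48.PR

open Finset Matrix Pool.Agent.R964.Doeblin
open Pool.Agent.Results.MP_313e16_pr.NotMonotone

set_option linter.unusedSectionVars false
set_option linter.unusedSimpArgs false

variable {N : ℕ} [NeZero N]

/-- no two adjacent ones -/
def Indep (x : Cfg N) : Prop := ∀ i, ¬ (x i = true ∧ x (i + 1) = true)

lemma val_succ (_hN : 2 ≤ N) (i : Fin N) : (i + 1).val = (i.val + 1) % N := by
  rw [Fin.val_add, Fin.val_one']
  simp

lemma succ_ne (hN : 2 ≤ N) (i : Fin N) : i + 1 ≠ i := by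
  intro h
  have h1 := congrArg Fin.val h
  rw [val_succ hN] at h1
  have := i.2
  rcases Nat.lt_or_ge (i.val + 1) N with h2 | h2
  · rw [Nat.mod_eq_of_lt h2] at h1; omega
  · have : i.val + 1 = N := by omega
    rw [this, Nat.mod_self] at h1
    omega

lemma pred_ne (hN : 2 ≤ N) (i : Fin N) : i - 1 ≠ i := by
  intro h
  apply succ_ne hN (i - 1)
  rw [sub_add_cancel]
  exact h.symm

lemma nbr_update (hN : 2 ≤ N) (x : Cfg N) (i : Fin N) (b : Bool) :
    nbr (Function.update x i b) i = nbr x i := by
  unfold nbr
  rw [Function.update_of_ne (pred_ne hN i), Function.update_of_ne (succ_ne hN i)]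

lemma nbr_zero_iff (x : Cfg N) (i : Fin N) :
    nbr x i = 0 ↔ x (i - 1) = false ∧ x (i + 1) = false := by
  unfold nbr
  cases h1 : x (i - 1) <;> cases h2 : x (i + 1) <;> simp

lemma indep_update_true (hN : 2 ≤ N) (x : Cfg N) (i : Fin N) :
    Indep (Function.update x i true) ↔ nbr x i = 0 ∧ Indep (Function.update x i false) := by
  constructor
  · intro h
    refine ⟨?_, ?_⟩
    · rw [nbr_zero_iff]
      have h1 := h i
      have h2 := h (i - 1)
      rw [Function.update_self, Function.update_of_ne (succ_ne hN i)] at h1
      rw [sub_add_cancel, Function.update_self, Function.update_of_ne (pred_ne hN i)] at h2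
      simp only [true_and, and_true, Bool.not_eq_true] at h1 h2
      exact ⟨h2, h1⟩
    · intro j hj
      apply h j
      have e : ∀ k, Function.update x i false k = true → Function.update x i true k = true := by
        intro k hk
        by_cases hki : k = i
        · subst hki; simp
        · rw [Function.update_of_ne hki] at hk ⊢; exact hk
      exact ⟨e _ hj.1, e _ hj.2⟩
  · rintro ⟨h0, h⟩ j ⟨h1, h2⟩
    rw [nbr_zero_iff] at h0
    by_cases hj : j = i
    · subst hj
      rw [Function.update_of_ne (succ_ne hN j)] at h2
      rw [h0.2] at h2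
      exact Bool.false_ne_true h2
    · by_cases hj2 : j + 1 = i
      · have : j = i - 1 := by rw [← hj2, add_sub_cancel_right]
        rw [Function.update_of_ne hj, this, h0.1] at h1
        exact Bool.false_ne_true h1
      · apply h j
        rw [Function.update_of_ne hj] at h1
        rw [Function.update_of_ne hj2] at h2
        rw [Function.update_of_ne hj, Function.update_of_ne hj2]
        exact ⟨h1, h2⟩

open Classical in
/-- hard-core weights -/
noncomputable def w (a : ℝ) (x : Cfg N) : ℝ :=
  if Indep x then a ^ (N - ones x) * (1 - a) ^ (ones x) else 0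

/-- the parameters -/
def pc (a c : ℝ) : Fin 4 → ℝ := ![1 - a, 0, 0, c]

lemma ones_succ (x : Cfg N) (i : Fin N) :
    ones (Function.update x i true) = ones (Function.update x i false) + 1 := by
  have h := ones_update_true (Function.update x i false) i
  rw [Function.update_idem] at h
  simp only [Function.update_self] at h
  have : (ones (Function.update x i true) : ℝ) = (ones (Function.update x i false) : ℝ) + 1 := by
    rw [h]; simp
  exact_mod_cast this

lemma heat_bath (hN : 2 ≤ N) (a : ℝ) (y : Cfg N) (i : Fin N) :
    (w a (Function.update y i true) + w a (Function.update y i false)) *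
      coin (pc a 0) (nbr y i) (y i) = w a y := by
  by_cases h0 : nbr y i = 0
  · have hiff := indep_update_true hN y i
    rw [h0]
    have c1 : coin (pc a 0) 0 true = 1 - a := by simp [coin, pc]
    have c2 : coin (pc a 0) 0 false = a := by simp [coin, pc]
    by_cases hI : Indep (Function.update y i false)
    · have hI2 : Indep (Function.update y i true) := hiff.mpr ⟨h0, hI⟩
      have ho := ones_succ y i
      have hle : ones (Function.update y i false) + 1 ≤ N := by
        rw [← ho]; exact ones_le _
      set k := ones (Function.update y i false) with hk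
      obtain ⟨m, hm⟩ : ∃ m, N = m + (k + 1) := ⟨N - (k + 1), by omega⟩
      have w1 : w a (Function.update y i true) = a ^ m * (1 - a) ^ (k + 1) := by
        unfold w
        rw [if_pos hI2, ho]
        congr 2
        omega
      have w2 : w a (Function.update y i false) = a ^ (m + 1) * (1 - a) ^ k := by
        unfold w
        rw [if_pos hI, ← hk]
        congr 2
        omega
      cases hy : y i
      · have e : Function.update y i false = y := by rw [← hy, Function.update_eq_self]
        rw [c2, w1, ← e, w2]
        simp only [Function.update_idem]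
        rw [show Function.update y i false = y from e] at w2
        rw [e, w2]
        ring
      · have e : Function.update y i true = y := by rw [← hy, Function.update_eq_self]
        rw [c1, w2]
        rw [e] at w1 ⊢
        rw [w1]
        ring
    · have hI2 : ¬ Indep (Function.update y i true) := fun h => hI (hiff.mp h).2
      have w1 : w a (Function.update y i true) = 0 := by unfold w; rw [if_neg hI2]
      have w2 : w a (Function.update y i false) = 0 := by unfold w; rw [if_neg hI]
      rw [w1, w2]
      cases hy : y i
      · have e : Function.update y i false = y := by rw [← hy, Function.update_eq_self]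
        rw [e] at w2
        rw [w2]; ring
      · have e : Function.update y i true = y := by rw [← hy, Function.update_eq_self]
        rw [e] at w1
        rw [w1]; ring
  · have hI2 : ¬ Indep (Function.update y i true) := fun h => h0 ((indep_update_true hN y i).mp h).1
    have w1 : w a (Function.update y i true) = 0 := by unfold w; rw [if_neg hI2]
    have hc : pc a 0 (nbr y i) = 0 := by
      generalize nbr y i = m at h0
      fin_cases m
      · exact absurd rfl h0
      all_goals simp [pc]
    rw [w1, zero_add]
    cases hy : y i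
    · have e : Function.update y i false = y := by rw [← hy, Function.update_eq_self]
      rw [e, coin_false, hc]; ring
    · have e : Function.update y i true = y := by rw [← hy, Function.update_eq_self]
      rw [e] at w1
      rw [w1, coin_true, hc]; ring

lemma sum_upd (g : Cfg N → ℝ) (y : Cfg N) (i : Fin N) (b : Bool) :
    ∑ x, (if y = Function.update x i b then g x else 0) =
      if y i = b then g (Function.update y i true) + g (Function.update y i false) else 0 := by
  classical
  split_ifs with h
  · rw [← Finset.sum_filter]
    have e : (univ.filter fun x : Cfg N => y = Function.update x i b) =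
        {Function.update y i true, Function.update y i false} := by
      ext x
      simp only [mem_filter, mem_univ, true_and, mem_insert, mem_singleton]
      constructor
      · rintro rfl
        simp only [Function.update_idem]
        cases hx : x i
        · right; rw [← hx, Function.update_eq_self]
        · left; rw [← hx, Function.update_eq_self]
      · rintro (rfl | rfl) <;> rw [Function.update_idem, ← h, Function.update_eq_self]
    rw [e, Finset.sum_pair]
    intro h'
    have := congrFun h' i
    simp at this
  · apply Finset.sum_eq_zero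
    intro x _
    rw [if_neg]
    rintro rfl
    simp at h

lemma w_stat (hN : 2 ≤ N) (a : ℝ) (y : Cfg N) :
    ∑ x, w a x * Pool.Agent.Results.MP_313e16_pr.NotMonotone.trans N (pc a 0) x y = w a y := by
  have hNpos := npos (N := N)
  unfold Pool.Agent.Results.MP_313e16_pr.NotMonotone.trans
  simp only [Matrix.of_apply, mul_div_assoc', ← Finset.sum_div, Finset.mul_sum]
  rw [Finset.sum_comm]
  have e : ∀ i : Fin N, ∑ x, w a x * ((if y = Function.update x i true then pc a 0 (nbr x i) else 0) +
      (if y = Function.update x i false then 1 - pc a 0 (nbr x i) else 0)) = w a y := by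
    intro i
    have e1 : ∀ x : Cfg N, w a x * ((if y = Function.update x i true then pc a 0 (nbr x i) else 0) +
      (if y = Function.update x i false then 1 - pc a 0 (nbr x i) else 0)) =
      (if y = Function.update x i true then w a x * pc a 0 (nbr x i) else 0) +
      (if y = Function.update x i false then w a x * (1 - pc a 0 (nbr x i)) else 0) := by
      intro x
      split_ifs <;> ring
    simp only [e1, Finset.sum_add_distrib]
    rw [sum_upd (fun x => w a x * pc a 0 (nbr x i)), sum_upd (fun x => w a x * (1 - pc a 0 (nbr x i)))]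
    simp only [nbr_update hN]
    have hb := heat_bath hN a y i
    cases hy : y i
    · rw [hy, coin_false] at hb
      simp only [Bool.false_eq_true, if_false, if_true, zero_add]
      linarith
    · rw [hy, coin_true] at hb
      simp only [Bool.true_eq_false, if_false, if_true, add_zero]
      linarith
  simp only [e, Finset.sum_const, Finset.card_univ, Fintype.card_fin, nsmul_eq_mul]
  field_simp

/-- the alternating configuration -/
def alt (N : ℕ) : Cfg N := fun i => decide (i.val % 2 = 1)

lemma ones_alt : ones (alt N) = N / 2 := by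
  unfold ones alt
  simp only [decide_eq_true_eq]
  rw [Finset.card_filter]
  rw [Fin.sum_univ_eq_sum_range (fun k => if k % 2 = 1 then 1 else 0) N]
  generalize N = M
  induction M with
  | zero => rfl
  | succ M ih =>
    rw [Finset.sum_range_succ, ih]
    split_ifs <;> omega

lemma indep_alt (hN : 2 ≤ N) : Indep (alt N) := by
  rintro i ⟨h1, h2⟩
  simp only [alt, decide_eq_true_eq] at h1 h2
  rw [val_succ hN] at h2
  have := i.2
  rcases Nat.lt_or_ge (i.val + 1) N with h3 | h3
  · rw [Nat.mod_eq_of_lt h3] at h2; omega
  · have : i.val + 1 = N := by omega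
    rw [this, Nat.mod_self] at h2
    omega

/-- for small `a` the hard-core mean is almost `N / 2` -/
theorem mean_hc (hN : 2 ≤ N) {a : ℝ} (ha : 0 < a) (ha2 : a ≤ 1 / 2) {π : Cfg N → ℝ}
    (hE : IsErgodic (Pool.Agent.Results.MP_313e16_pr.NotMonotone.trans N (pc a 0)))
    (hπ : IsStationary N (pc a 0) π) :
    ((N / 2 : ℕ) : ℝ) - N * 4 ^ N * a ≤ mean π := by
  classical
  have hw0 : ∀ x : Cfg N, 0 ≤ w a x := by
    intro x
    unfold w
    split_ifs
    · have : (0 : ℝ) ≤ 1 - a := by linarith
      positivity
    · exact le_rfl
  set Z : ℝ := ∑ x : Cfg N, w a x with hZ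
  set K : ℕ := N / 2 with hK
  have hwalt : a ^ (N - K) * (1 / 2) ^ K ≤ w a (alt N) := by
    unfold w
    rw [if_pos (indep_alt hN), ones_alt, ← hK]
    apply mul_le_mul_of_nonneg_left _ (by positivity)
    apply pow_le_pow_left₀ (by norm_num)
    linarith
  have hZge : a ^ (N - K) * (1 / 2) ^ K ≤ Z :=
    hwalt.trans (Finset.single_le_sum (fun x _ => hw0 x) (Finset.mem_univ _))
  have hZpos : 0 < Z := lt_of_lt_of_le (by positivity) hZge
  have hstat : IsProb (fun x : Cfg N => w a x / Z) ∧
      (fun x : Cfg N => w a x / Z) ᵥ* Pool.Agent.Results.MP_313e16_pr.NotMonotone.trans N (pc a 0) =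
        fun x => w a x / Z := by
    refine ⟨⟨fun x => div_nonneg (hw0 x) hZpos.le, ?_⟩, ?_⟩
    · rw [← Finset.sum_div, div_self hZpos.ne']
    · funext y
      simp only [vecMul, dotProduct, div_mul_eq_mul_div, ← Finset.sum_div]
      rw [w_stat hN a y]
  obtain ⟨π0, _, _, huniq, _⟩ := hE
  have h1 := huniq π hπ.1 hπ.2
  have h2 := huniq _ hstat.1 hstat.2
  have h3 : π = fun x => w a x / Z := by rw [h1, h2]
  have hterm : ∀ x : Cfg N, w a x * ((K : ℝ) - ones x) ≤ K * a ^ (N - K + 1) := by
    intro x
    have ha1 : (0 : ℝ) ≤ 1 - a := by linarith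
    by_cases hx : ones x < K
    · unfold w
      split_ifs with hI
      · have hle : ones x ≤ N := ones_le x
        have hKN : K ≤ N := Nat.div_le_self N 2
        have e1 : a ^ (N - ones x) ≤ a ^ (N - K + 1) :=
          pow_le_pow_of_le_one ha.le (by linarith) (by omega)
        have e2 : (1 - a) ^ ones x ≤ 1 := pow_le_one₀ ha1 (by linarith)
        have e3 : a ^ (N - ones x) * (1 - a) ^ ones x ≤ a ^ (N - K + 1) :=
          (mul_le_of_le_one_right (by positivity) e2).trans e1
        have e4 : (0 : ℝ) ≤ K - ones x := by
          have : (ones x : ℝ) ≤ K := by exact_mod_cast hx.le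
          linarith
        have e5 : (K : ℝ) - ones x ≤ K := by
          have : (0 : ℝ) ≤ ones x := Nat.cast_nonneg _
          linarith
        calc a ^ (N - ones x) * (1 - a) ^ ones x * ((K : ℝ) - ones x)
            ≤ a ^ (N - K + 1) * K := mul_le_mul e3 e5 e4 (by positivity)
          _ = K * a ^ (N - K + 1) := by ring
      · rw [zero_mul]; positivity
    · have e4 : (K : ℝ) - ones x ≤ 0 := by
        have : (K : ℝ) ≤ ones x := by exact_mod_cast Nat.le_of_not_lt hx
        linarith
      have : w a x * ((K : ℝ) - ones x) ≤ 0 := mul_nonpos_of_nonneg_of_nonpos (hw0 x) e4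
      have : (0 : ℝ) ≤ K * a ^ (N - K + 1) := by positivity
      linarith
  have hsum : (K : ℝ) * Z - ∑ x : Cfg N, w a x * (ones x : ℝ) ≤ 2 ^ N * (K * a ^ (N - K + 1)) := by
    calc (K : ℝ) * Z - ∑ x : Cfg N, w a x * (ones x : ℝ) = ∑ x : Cfg N, w a x * ((K : ℝ) - ones x) := by
          rw [hZ, Finset.mul_sum, ← Finset.sum_sub_distrib]
          exact Finset.sum_congr rfl fun x _ => by ring
      _ ≤ ∑ x : Cfg N, (K : ℝ) * a ^ (N - K + 1) := Finset.sum_le_sum fun x _ => hterm x
      _ = 2 ^ N * (K * a ^ (N - K + 1)) := by
          rw [Finset.sum_const, Finset.card_univ, nsmul_eq_mul]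
          congr 1
          simp
  have hmean : mean π = (∑ x : Cfg N, w a x * (ones x : ℝ)) / Z := by
    unfold mean
    rw [h3]
    simp only [div_mul_eq_mul_div, ← Finset.sum_div]
  rw [hmean, le_div_iff₀ hZpos]
  have hK1 : (K : ℝ) ≤ N := by exact_mod_cast Nat.div_le_self N 2
  have h4 : (2 : ℝ) ^ N * (K * a ^ (N - K + 1)) ≤ N * 4 ^ N * a * Z := by
    have e1 : (2 : ℝ) ^ N * (K * a ^ (N - K + 1)) ≤ 2 ^ N * (N * a ^ (N - K + 1)) := by gcongr
    have e2 : (4 : ℝ) ^ N = 2 ^ N * 2 ^ N := by rw [← mul_pow]; norm_num
    have e3 : (1 : ℝ) ≤ 2 ^ N * (1 / 2) ^ K := by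
      have : (2 : ℝ) ^ K ≤ 2 ^ N := pow_le_pow_right₀ (by norm_num) (Nat.div_le_self N 2)
      calc (1 : ℝ) = 2 ^ K * (1 / 2) ^ K := by rw [← mul_pow]; norm_num
        _ ≤ _ := by gcongr
    have e4 : a ^ (N - K) ≤ 2 ^ N * Z := by
      calc a ^ (N - K) = a ^ (N - K) * 1 := by ring
        _ ≤ a ^ (N - K) * (2 ^ N * (1 / 2) ^ K) := by gcongr
        _ = 2 ^ N * (a ^ (N - K) * (1 / 2) ^ K) := by ring
        _ ≤ 2 ^ N * Z := by gcongr
    calc (2 : ℝ) ^ N * (K * a ^ (N - K + 1)) ≤ 2 ^ N * (N * a ^ (N - K + 1)) := e1
      _ = 2 ^ N * N * a * a ^ (N - K) := by rw [pow_succ]; ring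
      _ ≤ 2 ^ N * N * a * (2 ^ N * Z) := by gcongr
      _ = N * 4 ^ N * a * Z := by rw [e2]; ring
  nlinarith

end Pool.Agent.KS6_48.PR
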