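import Pool.Agent.KS6_48.PR.Flow

set_option autoImplicit false

namespace Pool.Agent.KS6_48.PR

open Finset Matrix Pool.Agent.R964.Doeblin
open Pool.Agent.Results.MP_313e16_pr.NotMonotone

set_option linter.unusedSectionVars false
set_option linter.unusedSimpArgs false

variable {N : ℕ} [NeZero N]

open Classical in
/-- indicator of the frozen configurations -/
noncomputable def fA (x : Cfg N) : ℝ := if Frozen x then 1 else 0

open Classical in
/-- indicator of the frozen configurations with few ones -/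
noncomputable def fD (x : Cfg N) : ℝ := if Frozen x ∧ 2 * ones x + 2 ≤ N then 1 else 0

lemma fA_nonneg (x : Cfg N) : 0 ≤ fA x := by unfold fA; split_ifs <;> norm_num
lemma fD_nonneg (x : Cfg N) : 0 ≤ fD x := by unfold fD; split_ifs <;> norm_num

lemma ones_bound (_hN : 6 ≤ N) (x : Cfg N) :
    (ones x : ℝ) ≤ ((N / 2 : ℕ) : ℝ) - fD x + N * (1 - fA x) := by
  unfold fD fA
  by_cases hF : Frozen x
  · have h2 := count_defects (frozen_indep hF)
    rw [if_pos hF]
    by_cases hD : 2 * ones x + 2 ≤ N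
    · rw [if_pos ⟨hF, hD⟩]
      have : ones x + 1 ≤ N / 2 := by omega
      have h3 : (ones x : ℝ) + 1 ≤ ((N / 2 : ℕ) : ℝ) := by exact_mod_cast this
      linarith
    · rw [if_neg (fun h => hD h.2)]
      have : ones x ≤ N / 2 := by omega
      have h3 : (ones x : ℝ) ≤ ((N / 2 : ℕ) : ℝ) := by exact_mod_cast this
      linarith
  · rw [if_neg hF, if_neg (fun h => hF h.1)]
    have h3 : (ones x : ℝ) ≤ N := by exact_mod_cast ones_le x
    have h4 : (0 : ℝ) ≤ ((N / 2 : ℕ) : ℝ) := Nat.cast_nonneg _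
    linarith

/-- the constant -/
noncomputable def kap (N : ℕ) : ℝ := (1 / (2 * (N : ℝ))) ^ (2 * N + 3)

lemma kap_pos : 0 < kap N := by
  unfold kap
  have := npos (N := N)
  positivity

lemma half_le {c : ℝ} (hc : c ≤ 1 / 2) : 1 / (2 * (N : ℝ)) ≤ (1 - c) / N := by
  have := npos (N := N)
  rw [div_le_div_iff₀ (by positivity) this]
  nlinarith

lemma iterA {a c : ℝ} (ha : 0 ≤ a) (hac : a ≤ c) (hc1 : c ≤ 1 / 2) (hN : 6 ≤ N) (x : Cfg N) :
    kap N ≤ (T (pc a c))^[2 * N] fA x := by
  have hNp := npos (N := N)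
  obtain ⟨y, hy, hp⟩ := absorb (by omega) x
  have h1 := NP_bound ha hac (by linarith) hp fA_nonneg
  have h2 : fA y = 1 := by unfold fA; rw [if_pos hy]
  rw [h2, mul_one] at h1
  refine le_trans ?_ h1
  unfold kap
  have h3 : (1 : ℝ) / (2 * N) ≤ 1 := by
    rw [div_le_one (by positivity)]
    have : (6 : ℝ) ≤ N := by exact_mod_cast hN
    linarith
  calc (1 / (2 * (N : ℝ))) ^ (2 * N + 3) ≤ (1 / (2 * (N : ℝ))) ^ (2 * N) :=
        pow_le_pow_of_le_one (by positivity) h3 (by omega)
    _ ≤ _ := pow_le_pow_left₀ (by positivity) (half_le hc1) _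

lemma iterD {a c : ℝ} (ha : 0 ≤ a) (hac : a ≤ c) (hc1 : c ≤ 1 / 2) (hN : 6 ≤ N) (hN7 : N ≠ 7)
    (x : Cfg N) : c * kap N ≤ (T (pc a c))^[2 * N + 3] fD x := by
  have hNp := npos (N := N)
  have hok := ok' ha hac (by linarith : c ≤ 1)
  have hc0 : 0 ≤ c := ha.trans hac
  set u : ℝ := 1 / (2 * (N : ℝ)) with hu
  have hu0 : 0 < u := by positivity
  have hu1 : u ≤ 1 / 2 := by
    rw [hu, div_le_div_iff₀ (by positivity) (by norm_num)]
    have : (6 : ℝ) ≤ N := by exact_mod_cast hN
    linarith
  have hur : u ≤ (1 - c) / N := half_le hc1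
  obtain ⟨y, hy, hp⟩ := absorb (by omega) x
  have h1 := NP_bound ha hac (by linarith) hp (iter_nonneg hok fD_nonneg 3)
  rw [← Function.iterate_add_apply] at h1
  refine le_trans ?_ h1
  have key : c * u ^ 3 ≤ (T (pc a c))^[3] fD y := by
    by_cases hD : 2 * ones y + 2 ≤ N
    · have h2 := frozen_iter ha hac (by linarith) hy fD_nonneg 3
      have h3 : fD y = 1 := by unfold fD; rw [if_pos ⟨hy, hD⟩]
      rw [h3, mul_one] at h2
      refine le_trans ?_ h2
      have h4 : u ^ 3 ≤ (1 - c) ^ 3 := pow_le_pow_left₀ hu0.le (by linarith) 3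
      have h5 : c * u ^ 3 ≤ 1 * u ^ 3 := mul_le_mul_of_nonneg_right (by linarith) (by positivity)
      linarith
    · obtain ⟨i, hi⟩ := exists_pat hN hN7 hy (by omega)
      have h2 := three ha hac (by linarith) hN hi fD_nonneg
      have hz1 := zz_frozen hN hy hi
      have hz2 := zz_ones hN hi
      have hz3 := count_defects (frozen_indep hy)
      have h3 : fD (zz y i) = 1 := by
        unfold fD; rw [if_pos ⟨hz1, by omega⟩]
      rw [h3, mul_one] at h2
      refine le_trans ?_ h2
      have e1 : u * u ≤ (1 - c) / N * ((1 - c) / N) := mul_le_mul hur hur hu0.le (by linarith)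
      have e2 : c * u ≤ c / N := by
        rw [hu, mul_one_div, div_le_div_iff₀ (by positivity) hNp]
        nlinarith
      calc c * u ^ 3 = (c * u) * (u * u) := by ring
        _ ≤ c / N * ((1 - c) / N * ((1 - c) / N)) :=
            mul_le_mul e2 e1 (by positivity) (div_nonneg hc0 hNp.le)
  have e : c * kap N = u ^ (2 * N) * (c * u ^ 3) := by
    unfold kap; rw [← hu, pow_add]; ring
  rw [e]
  apply mul_le_mul _ key (by positivity) _
  · exact pow_le_pow_left₀ hu0.le hur _
  · apply pow_nonneg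
    linarith

lemma bern {c : ℝ} (_hc0 : 0 ≤ c) (hc1 : c ≤ 1) (n : ℕ) : 1 - n * c ≤ (1 - c) ^ n := by
  have := one_add_mul_le_pow (a := -c) (by linarith) n
  have e : 1 + (-c) = 1 - c := by ring
  rw [e] at this
  linarith

/-- in the regime `a ≤ c`, `c` small, the mean number of ones is smaller than `N / 2` by a constant -/
theorem mean_flow (hN : 6 ≤ N) (hN7 : N ≠ 7) {a c : ℝ} (ha : 0 ≤ a) (hac : a ≤ c) (hc0 : 0 < c)
    (hc1 : c ≤ 1 / 2) (hc : c * (8 * N ^ 2 * (2 * N + 3)) ≤ kap N ^ 2) {π : Cfg N → ℝ}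
    (hπ : IsStationary N (pc a c) π) :
    mean π ≤ ((N / 2 : ℕ) : ℝ) - kap N / (4 * (2 * N + 3)) := by
  classical
  have hNp := npos (N := N)
  have hk := kap_pos (N := N)
  set κ := kap N with hκ
  have hκ1 : κ ≤ 1 := by
    rw [hκ]; unfold kap
    apply pow_le_one₀ (by positivity)
    rw [div_le_one (by positivity)]
    have : (6 : ℝ) ≤ N := by exact_mod_cast hN
    linarith
  set L : ℝ := 2 * N + 3 with hL
  have hL1 : 1 ≤ L := by rw [hL]; linarith
  set dA := ∑ x, π x * fA x with hdA
  set dD := ∑ x, π x * fD x with hdD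
  have hsum := hπ.1.sum_one
  have hpos := hπ.1.nonneg
  -- frozen mass
  have hA : (1 - dA) * κ ≤ 2 * N * c := by
    have h1 := stat_iter hπ.2 (2 * N) fA
    have h2 : ∑ x, π x * (fA x * (1 - 2 * N * c) + (1 - fA x) * κ) ≤
        ∑ x, π x * (T (pc a c))^[2 * N] fA x := by
      refine Finset.sum_le_sum fun x _ => mul_le_mul_of_nonneg_left ?_ (hpos x)
      by_cases hF : Frozen x
      · have h3 : fA x = 1 := by unfold fA; rw [if_pos hF]
        have h4 := frozen_iter ha hac (by linarith) hF fA_nonneg (2 * N)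
        have h5 := bern hc0.le (by linarith) (2 * N)
        rw [h3] at h4 ⊢
        push_cast at h5
        linarith
      · have h3 : fA x = 0 := by unfold fA; rw [if_neg hF]
        have h4 := iterA ha hac hc1 hN x
        rw [h3]
        linarith
    rw [h1] at h2
    have h3 : ∑ x, π x * (fA x * (1 - 2 * N * c) + (1 - fA x) * κ) =
        dA * (1 - 2 * N * c) + (1 - dA) * κ := by
      have e : ∀ x, π x * (fA x * (1 - 2 * N * c) + (1 - fA x) * κ) =
          (π x * fA x) * (1 - 2 * N * c - κ) + π x * κ := fun x => by ring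
      rw [Finset.sum_congr rfl (fun x _ => e x), Finset.sum_add_distrib, ← Finset.sum_mul,
        ← Finset.sum_mul, hsum, ← hdA]
      ring
    rw [h3] at h2
    have h4 : dA ≤ 1 := by
      rw [hdA, ← hsum]
      refine Finset.sum_le_sum fun x _ => ?_
      have : fA x ≤ 1 := by unfold fA; split_ifs <;> norm_num
      nlinarith [hpos x]
    have h5 : 2 * N * c * dA ≤ 2 * N * c * 1 := mul_le_mul_of_nonneg_left h4 (by positivity)
    have h6 : ∑ x, π x * fA x = dA := rfl
    linarith
  -- mass of D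
  have hD : κ ≤ dD * (2 * L) := by
    have h1 := stat_iter hπ.2 (2 * N + 3) fD
    have h2 : ∑ x, π x * (fD x * (1 - L * c) + (1 - fD x) * (c * κ)) ≤
        ∑ x, π x * (T (pc a c))^[2 * N + 3] fD x := by
      refine Finset.sum_le_sum fun x _ => mul_le_mul_of_nonneg_left ?_ (hpos x)
      by_cases hF : Frozen x ∧ 2 * ones x + 2 ≤ N
      · have h3 : fD x = 1 := by unfold fD; rw [if_pos hF]
        have h4 := frozen_iter ha hac (by linarith) hF.1 fD_nonneg (2 * N + 3)
        have h5 := bern hc0.le (by linarith) (2 * N + 3)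
        rw [h3] at h4 ⊢
        push_cast at h5
        rw [← hL] at h5
        linarith
      · have h3 : fD x = 0 := by unfold fD; rw [if_neg hF]
        have h4 := iterD ha hac hc1 hN hN7 x
        rw [h3]
        linarith
    rw [h1] at h2
    have h3 : ∑ x, π x * (fD x * (1 - L * c) + (1 - fD x) * (c * κ)) =
        dD * (1 - L * c) + (1 - dD) * (c * κ) := by
      have e : ∀ x, π x * (fD x * (1 - L * c) + (1 - fD x) * (c * κ)) =
          (π x * fD x) * (1 - L * c - c * κ) + π x * (c * κ) := fun x => by ring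
      rw [Finset.sum_congr rfl (fun x _ => e x), Finset.sum_add_distrib, ← Finset.sum_mul,
        ← Finset.sum_mul, hsum, ← hdD]
      ring
    rw [h3] at h2
    have hdD0 : 0 ≤ dD := Finset.sum_nonneg fun x _ => mul_nonneg (hpos x) (fD_nonneg x)
    have h6 : ∑ x, π x * fD x = dD := rfl
    have h5 : c * κ ≤ c * (dD * (L + κ)) := by linarith
    have h7 : κ ≤ dD * (L + κ) := le_of_mul_le_mul_left h5 hc0
    nlinarith
  -- conclusion
  have hmean : mean π ≤ ((N / 2 : ℕ) : ℝ) - dD + N * (1 - dA) := by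
    unfold mean
    calc ∑ x, π x * (ones x : ℝ) ≤ ∑ x, π x * (((N / 2 : ℕ) : ℝ) - fD x + N * (1 - fA x)) :=
          Finset.sum_le_sum fun x _ => mul_le_mul_of_nonneg_left (ones_bound hN x) (hpos x)
      _ = ((N / 2 : ℕ) : ℝ) - dD + N * (1 - dA) := by
          have e : ∀ x, π x * (((N / 2 : ℕ) : ℝ) - fD x + N * (1 - fA x)) =
              π x * (((N / 2 : ℕ) : ℝ) + N) - π x * fD x - (π x * fA x) * N := fun x => by ring
          rw [Finset.sum_congr rfl (fun x _ => e x), Finset.sum_sub_distrib,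
            Finset.sum_sub_distrib, ← Finset.sum_mul, ← Finset.sum_mul, hsum, ← hdD, ← hdA]
          ring
  have h1 : N * (1 - dA) ≤ κ / (4 * L) := by
    rw [le_div_iff₀ (by positivity)]
    have e1 : (1 - dA) * κ * (N * 4 * L) ≤ 2 * N * c * (N * 4 * L) :=
      mul_le_mul_of_nonneg_right hA (by positivity)
    have e2 : 2 * N * c * (N * 4 * L) = c * (8 * N ^ 2 * L) := by ring
    have e3 : κ * (N * (1 - dA) * (4 * L)) ≤ κ * κ := by nlinarith
    exact le_of_mul_le_mul_left e3 hk
  have h2 : κ / (2 * L) ≤ dD := by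
    rw [div_le_iff₀ (by positivity)]
    exact hD
  have h3 : κ / (2 * L) = κ / (4 * L) + κ / (4 * L) := by
    field_simp; ring
  linarith

end Pool.Agent.KS6_48.PR
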