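import Pool.Agent.KS6_48.PR.Flow

set_option autoImplicit false

namespace Pool.Agent.KS6_48.PR

open Finset Matrix Pool.Agent.R964.Doeblin
open Pool.Agent.Results.MP_313e16_pr.NotMonotone

/-- table of the test function for seven players -/
def tab : List ℤ := [-464, -345, -345, -278, -345, -138, -278, -143, -345, -275, -138, -78, -278, -78, -143, 22, -345, -275, -275, -272, -138, 0, -78, -14, -278, -272, -78, -93, -143, -14, 22, 117, -345, -138, -275, -78, -275, 0, -272, -14, -138, 0, 0, 154, -78, 154, -14, 228, -278, -78, -272, -93, -78, 154, -93, 116, -143, -14, -14, 116, 22, 228, 117, 321, -345, -278, -138, -143, -275, -78, -78, 22, -275, -272, 0, -14, -272, -93, -14, 117, -138, -78, 0, -14, 0, 154, 154, 228, -78, -93, 154, 116, -14, 116, 228, 321, -278, -143, -78, 22, -272, -14, -93, 117, -78, -14, 154, 228, -93, 116, 116, 321, -143, 22, -14, 117, -14, 228, 116, 321, 22, 117, 228, 321, 117, 321, 321, 522]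

def code (x : Fin 7 → Bool) : ℕ :=
  (bif x 0 then 1 else 0) + (bif x 1 then 2 else 0) + (bif x 2 then 4 else 0) +
  (bif x 3 then 8 else 0) + (bif x 4 then 16 else 0) + (bif x 5 then 32 else 0) +
  (bif x 6 then 64 else 0)

/-- the test function -/
def HH (x : Fin 7 → Bool) : ℤ := tab.getD (code x) 0

def q5 : Fin 4 → ℤ := ![5, 0, 0, 1]

def onesZ (x : Fin 7 → Bool) : ℤ :=
  (bif x 0 then 1 else 0) + (bif x 1 then 1 else 0) + (bif x 2 then 1 else 0) +
  (bif x 3 then 1 else 0) + (bif x 4 then 1 else 0) + (bif x 5 then 1 else 0) +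
  (bif x 6 then 1 else 0)

def term7 (x : Fin 7 → Bool) (i : Fin 7) : ℤ :=
  q5 (nbr x i) * HH (Function.update x i true) + (5 - q5 (nbr x i)) * HH (Function.update x i false)

def check (x : Fin 7 → Bool) : Bool :=
  decide (term7 x 0 + term7 x 1 + term7 x 2 + term7 x 3 + term7 x 4 + term7 x 5 + term7 x 6 +
    1400 * onesZ x - 35 * HH x ≤ 4180) && decide (-464 ≤ HH x) && decide (HH x ≤ 522)

/-- configurations from seven bits -/
def mk7 (a b c d e f g : Bool) : Fin 7 → Bool := ![a, b, c, d, e, f, g]

set_option maxRecDepth 100000 in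
lemma check_all : ∀ a b c d e f g : Bool, check (mk7 a b c d e f g) = true := by
  decide +kernel

lemma check_cfg (x : Fin 7 → Bool) : check x = true := by
  have h := check_all (x 0) (x 1) (x 2) (x 3) (x 4) (x 5) (x 6)
  have e : mk7 (x 0) (x 1) (x 2) (x 3) (x 4) (x 5) (x 6) = x := by
    funext i
    fin_cases i <;> rfl
  rwa [e] at h

end Pool.Agent.KS6_48.PR
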