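import Pool.Agent.KS6_48.PR.Seven

set_option autoImplicit false

namespace Pool.Agent.KS6_48.PR

open Finset Matrix Pool.Agent.R964.Doeblin
open Pool.Agent.Results.MP_313e16_pr.NotMonotone

lemma onesZ_eq (x : Fin 7 → Bool) : (onesZ x : ℝ) = (ones x : ℝ) := by
  have h : (ones x : ℝ) = ∑ i : Fin 7, (if x i then (1 : ℝ) else 0) := by
    unfold ones
    rw [Finset.card_filter]
    push_cast
    rfl
  rw [h]
  unfold onesZ
  simp only [Fin.sum_univ_succ, Finset.univ_unique, Finset.sum_singleton]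
  push_cast
  have e : ∀ b : Bool, ((bif b then (1 : ℤ) else 0 : ℤ) : ℝ) = if b then (1 : ℝ) else 0 := by
    intro b; cases b <;> simp
  rw [e, e, e, e, e, e, e]
  change _ = (if x 0 then (1 : ℝ) else 0) + ((if x 1 then (1 : ℝ) else 0) +
    ((if x 2 then (1 : ℝ) else 0) + ((if x 3 then (1 : ℝ) else 0) +
    ((if x 4 then (1 : ℝ) else 0) + ((if x 5 then (1 : ℝ) else 0) +
    (if x 6 then (1 : ℝ) else 0))))))
  ring

/-- the real test function -/
noncomputable def hr (x : Cfg 7) : ℝ := (HH x : ℝ) / 40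

lemma term_bound {a : ℝ} (ha : 0 ≤ a) (x : Cfg 7) (i : Fin 7) :
    coin (pc a (1 / 5)) (nbr x i) true * hr (Function.update x i true) +
      coin (pc a (1 / 5)) (nbr x i) false * hr (Function.update x i false) ≤
      (term7 x i : ℝ) / 200 + a * 25 := by
  have b1 := check_cfg (Function.update x i true)
  have b2 := check_cfg (Function.update x i false)
  simp only [check, Bool.and_eq_true, decide_eq_true_eq] at b1 b2
  have b1' : (-464 : ℝ) ≤ HH (Function.update x i true) := by exact_mod_cast b1.1.2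
  have b2' : (HH (Function.update x i false) : ℝ) ≤ 522 := by exact_mod_cast b2.2
  unfold term7 hr
  push_cast
  generalize (HH (Function.update x i true) : ℝ) = u at *
  generalize (HH (Function.update x i false) : ℝ) = v at *
  generalize nbr x i = m
  have hm : m = 0 ∨ m = 1 ∨ m = 2 ∨ m = 3 := by
    fin_cases m <;> simp
  rcases hm with rfl | rfl | rfl | rfl
  · have e1 : coin (pc a (1 / 5)) 0 true = 1 - a := by simp [coin, pc]
    have e2 : coin (pc a (1 / 5)) 0 false = a := by simp [coin, pc]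
    have e3 : ((q5 0 : ℤ) : ℝ) = 5 := by simp [q5]
    rw [e1, e2, e3]
    nlinarith
  · have e1 : coin (pc a (1 / 5)) 1 true = 0 := by simp [coin, pc]
    have e2 : coin (pc a (1 / 5)) 1 false = 1 := by simp [coin, pc]
    have e3 : ((q5 1 : ℤ) : ℝ) = 0 := by simp [q5]
    rw [e1, e2, e3]
    nlinarith
  · have e1 : coin (pc a (1 / 5)) 2 true = 0 := by simp [coin, pc]
    have e2 : coin (pc a (1 / 5)) 2 false = 1 := by simp [coin, pc]
    have e3 : ((q5 2 : ℤ) : ℝ) = 0 := by simp [q5]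
    rw [e1, e2, e3]
    nlinarith
  · have e1 : coin (pc a (1 / 5)) 3 true = 1 / 5 := by simp [coin, pc]
    have e2 : coin (pc a (1 / 5)) 3 false = 4 / 5 := by simp [coin, pc]; norm_num
    have e3 : ((q5 3 : ℤ) : ℝ) = 1 := by simp [q5]
    rw [e1, e2, e3]
    nlinarith

lemma point_bound {a : ℝ} (ha : 0 ≤ a) (x : Cfg 7) :
    (ones x : ℝ) + T (pc a (1 / 5)) hr x - hr x ≤ 209 / 70 + a * 25 := by
  have hc := check_cfg x
  simp only [check, Bool.and_eq_true, decide_eq_true_eq] at hc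
  have h1 : (term7 x 0 : ℝ) + term7 x 1 + term7 x 2 + term7 x 3 + term7 x 4 + term7 x 5 +
      term7 x 6 + 1400 * onesZ x - 35 * HH x ≤ 4180 := by exact_mod_cast hc.1.1
  rw [onesZ_eq] at h1
  have h2 : T (pc a (1 / 5)) hr x ≤ (∑ i : Fin 7, ((term7 x i : ℝ) / 200 + a * 25)) / 7 := by
    unfold T
    have : ((7 : ℕ) : ℝ) = 7 := by norm_num
    rw [this]
    apply div_le_div_of_nonneg_right _ (by norm_num)
    exact Finset.sum_le_sum fun i _ => term_bound ha x i
  have h3 : ∑ i : Fin 7, ((term7 x i : ℝ) / 200 + a * 25) =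
      ((term7 x 0 : ℝ) + term7 x 1 + term7 x 2 + term7 x 3 + term7 x 4 + term7 x 5 +
      term7 x 6) / 200 + 7 * (a * 25) := by
    rw [Finset.sum_add_distrib, ← Finset.sum_div]
    simp only [Fin.sum_univ_succ, Finset.univ_unique, Finset.sum_singleton]
    change ((term7 x 0 : ℝ) + ((term7 x 1 : ℝ) + ((term7 x 2 : ℝ) + ((term7 x 3 : ℝ) +
      ((term7 x 4 : ℝ) + ((term7 x 5 : ℝ) + (term7 x 6 : ℝ))))))) / 200 + _ = _
    ring
  rw [h3] at h2
  have h4 : hr x = (HH x : ℝ) / 40 := rfl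
  rw [h4]
  linarith

theorem mean_seven {a : ℝ} (ha : 0 ≤ a) {π : Cfg 7 → ℝ} (hπ : IsStationary 7 (pc a (1 / 5)) π) :
    mean π ≤ 209 / 70 + a * 25 := by
  have h1 := stat_T hπ.2 hr
  have h2 : ∑ x, π x * ((ones x : ℝ) + T (pc a (1 / 5)) hr x - hr x) ≤
      ∑ x, π x * (209 / 70 + a * 25) :=
    Finset.sum_le_sum fun x _ => mul_le_mul_of_nonneg_left (point_bound ha x) (hπ.1.nonneg x)
  rw [← Finset.sum_mul, hπ.1.sum_one] at h2
  have e : ∀ x, π x * ((ones x : ℝ) + T (pc a (1 / 5)) hr x - hr x) =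
      π x * ones x + π x * T (pc a (1 / 5)) hr x - π x * hr x := fun x => by ring
  rw [Finset.sum_congr rfl (fun x _ => e x), Finset.sum_sub_distrib, Finset.sum_add_distrib, h1] at h2
  unfold mean
  linarith

end Pool.Agent.KS6_48.PR
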